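import Pool.Agent.helper88.RQ2.Spec

set_option autoImplicit false

open Set Matroid RadonMin

namespace RadonQ2

theorem ETM_single {V : Type} [AddCommGroup V] [Module ℝ V] [DecidableEq V] (K : Finset V → Prop)
    (X : Finset V) (hne : X.Nonempty) (hK : K X) : DecR K X := by
  refine ⟨{X}, ?_, ?_, ?_, ?_⟩
  · intro B hB
    rw [Finset.mem_singleton] at hB
    subst hB
    exact ⟨hne, hK⟩
  · rw [Finset.coe_singleton]
    exact Set.pairwiseDisjoint_singleton X id
  · intro x
    constructor
    · intro hx
      exact ⟨X, Finset.mem_singleton_self X, hx⟩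
    · rintro ⟨B, hB, hx⟩
      rw [Finset.mem_singleton] at hB
      subst hB
      exact hx
  · rw [Finset.sum_singleton]

theorem ETM_bound {V : Type} [AddCommGroup V] [Module ℝ V] [DecidableEq V] (m : ℕ) (X : Finset V) :
    TT m X.card (ra X) ≤ ci X := by
  have h := T_bound (affMat_simp X) (affMat_good X) m
  rw [affMat_E, ncard_coe_finset] at h
  exact h

theorem ETM_add (m : ℕ) (a b c d : ℤ) : TT m (a + b) (c + d) = TT m a c + TT m b d := by
  unfold TT
  ring

theorem ETM_conn (hMST : MST_stmt) (hAR2 : AR2_stmt) (hAR3 : AR3_stmt) (hC5 : C5_stmt)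
    (hV1 : V1_stmt) (hGCO : GCO_stmt) (hEB : EB_stmt)
    (V : Type) [AddCommGroup V] [Module ℝ V] [DecidableEq V] (m : ℕ) (hm : 3 ≤ m)
    (X : Finset V) (hne : X.Nonempty) (hc : Conn (affMat X))
    (hX : (ci X : ℤ) = TT m X.card (ra X)) : KindT m X := by
  obtain ⟨-, -, -, -, -, h1, -⟩ := hEB V
  have hr1 := h1 X hne
  have hcard := Finset.card_pos.mpr hne
  have hE : rk (affMat X) (affMat X).E = ra X := by
    rw [affMat_E]
    rfl
  have hEn : (affMat X).E.ncard = X.card := by
    rw [affMat_E, ncard_coe_finset]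
  rcases Nat.lt_or_ge (ra X) 2 with h2 | h2
  · exfalso
    have hr : ra X = 1 := by omega
    have h3 := ncard_le_one_of_rk (affMat_simp X) (by rw [hE]; omega)
    rw [hEn] at h3
    have h4 : X.card = 1 := by omega
    have h5 : (0 : ℤ) ≤ (ci X : ℤ) := Int.natCast_nonneg _
    rw [hX, h4, hr] at h5
    unfold TT at h5
    rw [choose_three_succ] at h5
    have h6 : 0 < m.choose 3 := Nat.choose_pos hm
    have h7 : (0 : ℤ) < (m.choose 3 : ℤ) := by exact_mod_cast h6
    push_cast at h5
    linarith
  rcases Nat.lt_or_ge (ra X) 3 with h3 | h3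
  · have hr : ra X = 2 := by omega
    have hcol := (hGCO V X).mp (by omega)
    have h4 := hV1 V X hcol
    rw [h4, hr] at hX
    have h5 := hAR3 m X.card (by omega) (by
      unfold TT at hX
      push_cast at hX
      linarith)
    exact Or.inl ⟨h5, hcol⟩
  rcases Nat.lt_or_ge (ra X) 4 with h4 | h4
  · have hr : ra X = 3 := by omega
    have h5 := affMat_good X (affMat X).E le_rfl (by rw [hE, hr])
    rw [restrict_ground_eq_self, hEn] at h5
    have h6 : 3 ≤ X.card := by
      have h7 : rk (affMat X) (affMat X).E ≤ (affMat X).E.ncard := rk_le_ncard le_rfl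
      rw [hE, hEn] at h7
      omega
    have h7 := T_le_hh m X.card h6
    have h8 : (hh X.card : ℤ) ≤ (ci X : ℤ) := by
      have h9 : hh X.card ≤ ci X := h5
      exact_mod_cast h9
    rw [hX, hr] at h8
    unfold TT at h8
    push_cast at h8
    have h9 := hAR2 m X.card hm h6 (by linarith)
    obtain ⟨h10, h11⟩ := h9
    have h12 : ci X ≤ 3 := by
      have h13 : (ci X : ℤ) ≤ 3 := by
        rw [hX, hr, h10, h11]
        decide
      exact_mod_cast h13
    exact Or.inr ⟨h10, hC5 V X hr h11 h12⟩
  · exfalso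
    have h5 := hMST V (affMat X) (affMat_simp X) (affMat_good X) hc (by rw [hE]; exact h4) m hm
    rw [hE, hEn] at h5
    have h6 : (cc (affMat X) : ℤ) = (ci X : ℤ) := rfl
    rw [h6, hX] at h5
    exact lt_irrefl _ h5

theorem ETM_aux (hMST : MST_stmt) (hAR2 : AR2_stmt) (hAR3 : AR3_stmt) (hC5 : C5_stmt)
    (hV1 : V1_stmt) (hGCO : GCO_stmt) (hEB : EB_stmt) (hESPL : ESPL_stmt) (hECI : ECI_stmt)
    (hEUN : EUN_stmt) (V : Type) [AddCommGroup V] [Module ℝ V] [DecidableEq V] (m : ℕ)
    (hm : 3 ≤ m) (N : ℕ) :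
    ∀ X : Finset V, X.card = N → (ci X : ℤ) = TT m X.card (ra X) → DecR (KindT m) X := by
  induction N using Nat.strong_induction_on with
  | _ N ih =>
    intro X hN hX
    have hEBV := hEB V
    obtain ⟨-, -, -, -, h0, -, -⟩ := hEBV
    by_cases hemp : X = ∅
    · subst hemp
      refine ⟨∅, ?_, ?_, ?_, ?_⟩
      · intro B hB
        exact absurd hB (Finset.notMem_empty B)
      · rw [Finset.coe_empty]
        exact Set.pairwiseDisjoint_empty
      · intro x
        constructor
        · intro hx
          exact absurd hx (Finset.notMem_empty x)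
        · rintro ⟨B, hB, -⟩
          exact absurd hB (Finset.notMem_empty B)
      · rw [Finset.sum_empty, h0]
    · have hne : X.Nonempty := Finset.nonempty_iff_ne_empty.mpr hemp
      by_cases hc : Conn (affMat X)
      · exact ETM_single _ X hne
          (ETM_conn hMST hAR2 hAR3 hC5 hV1 hGCO hEB V m hm X hne hc hX)
      · obtain ⟨A, hA, hAne, hBne, hrk⟩ := hESPL V X hc
        have hci := hECI V X A hA hrk
        have hb1 := ETM_bound m A
        have hb2 := ETM_bound m (X \ A)
        have hcard : (X \ A).card + A.card = X.card := Finset.card_sdiff_add_card_eq_card hA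
        have hsum : TT m X.card (ra X) = TT m A.card (ra A) + TT m (X \ A).card (ra (X \ A)) := by
          rw [← ETM_add, ← hrk, ← hcard]
          congr 1
          push_cast
          ring
        have hci' : (ci X : ℤ) = ci A + ci (X \ A) := by
          rw [hci]
          push_cast
          ring
        have he1 : (ci A : ℤ) = TT m A.card (ra A) := by linarith
        have he2 : (ci (X \ A) : ℤ) = TT m (X \ A).card (ra (X \ A)) := by linarith
        have hp1 := Finset.card_pos.mpr hAne
        have hp2 := Finset.card_pos.mpr hBne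
        exact hEUN V (KindT m) X A hA hrk (ih A.card (by omega) A rfl he1)
          (ih (X \ A).card (by omega) (X \ A) rfl he2)

theorem ETM_proof (hMST : MST_stmt) (hAR2 : AR2_stmt) (hAR3 : AR3_stmt) (hC5 : C5_stmt)
    (hV1 : V1_stmt) (hGCO : GCO_stmt) (hEB : EB_stmt) (hESPL : ESPL_stmt) (hECI : ECI_stmt)
    (hEUN : EUN_stmt) : ETM_stmt := by
  intro V _ _ _ m X hm hX
  exact ETM_aux hMST hAR2 hAR3 hC5 hV1 hGCO hEB hESPL hECI hEUN V m hm X.card X rfl hX

end RadonQ2
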