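import Pool.Agent.helper88.RQ2.Spec

set_option autoImplicit false

open Set Matroid RadonMin

namespace RadonQ2

theorem RKD_proof (hRLE : RLE_stmt) (hAR4 : AR4_stmt) (hEB : EB_stmt) : RKD_stmt := by
  intro V _ _ _ d X hd hr hc hX
  by_contra hne
  have hle : ra X ≤ d := by omega
  obtain ⟨-, -, -, -, -, -, h2⟩ := hEB V
  have h3 := h2 X (by omega)
  obtain ⟨e, rfl⟩ : ∃ e, d = e + 1 := ⟨d - 1, by omega⟩
  have he : 1 ≤ e := by omega
  have h4 := hRLE V e X he hle (by omega)
  have h5 := hAR4 e X.card he (by omega)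
  omega

end RadonQ2
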